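import Mathlib
import Pool.Agent.Y685.G9

/-!
# All failures of the elliptic Schanuel conjecture come from a countable set of failures

`L` is a pair of periods `ω₁, ω₂` (independent over `ℝ`), `L.lattice = ℤ ω₁ + ℤ ω₂`, and `℘[L]`,
`L.g₂`, `L.g₃` are Mathlib's Weierstrass function and invariants.

The conjecture says that `trdeg ℚ(g₂, g₃, pᵢ, ℘(pᵢ), ζ(pᵢ)) ≥ 2 n` for all `p₁, …, pₙ` outside the
lattice which are linearly independent over `End(ℂ / L) ⊗ ℚ`.

The theorem: there is a countable set `F` such that for every failure `(L, p)`, of any defect, there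
is a lattice `c L` and there are combinations `q₁, …, q_m` of `c p₁, …, c pₙ` which are a failure at
least as bad, such that a basis of `c L` and all numbers `g₂, g₃, q_i, ℘(q_i), ζ(q_i)` of `c L` lie in
`F`. There are only countably many pairs `(c L, q)` of this kind, and only countably many `j(c L)`.

## The proof (in `Pool.Agent.Y685`, `Pool.Agent.Y776`, `Pool.Agent.Y119`)

* `F` is a countable field which is closed under everything in sight (`G5`).
* Lattices with `j(L) ∉ F`: the transcendence degree over `F` is at least `2 n` (`Fld.gen'`, by the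
  Ax-Schanuel theorem for the family of all elliptic curves with its periods, and an argument with
  modular forms of negative weight).
* Lattices with `j(L) ∈ F` and points independent modulo `F`: Ax's theorem for a fixed curve (`G4`).
-/

set_option autoImplicit false

open scoped PeriodPair

namespace Pool.Agent.Results.MP_2ad15a_nt.CountablyManyFailures

/-- The Weierstrass zeta function `ζ(z) = ∑ (1/(z-l) + 1/l + z/l²)`, the sum over the lattice (the
summand of `l = 0` is `1/z`, since `1/0 = 0` in Lean). -/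
noncomputable def ζ (L : PeriodPair) (z : ℂ) : ℂ :=
  ∑' l : L.lattice, (1 / (z - l) + 1 / l + z / l ^ 2)

/-- The transcendence degree over `k` of the field generated by `S`. -/
noncomputable def trd (k : Type) [Field k] [Algebra k ℂ] (S : Set ℂ) : Cardinal :=
  Algebra.trdeg k (IntermediateField.adjoin k S)

/-- The numbers `g₂, g₃, pᵢ, ℘(pᵢ), ζ(pᵢ)`. -/
def numbers (L : PeriodPair) {n : ℕ} (p : Fin n → ℂ) : Set ℂ :=
  {L.g₂, L.g₃} ∪ {x | ∃ i, x = p i ∨ x = ℘[L] (p i) ∨ x = ζ L (p i)}

/-- `a` belongs to the field `End(ℂ / L) ⊗ ℚ`. -/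
def IsMult (L : PeriodPair) (a : ℂ) : Prop :=
  ∃ m : ℕ, 0 < m ∧ ∀ w ∈ L.lattice, ((m : ℂ) * a) * w ∈ L.lattice

/-- `p₁, …, pₙ` are points outside the lattice, independent over `End(ℂ / L) ⊗ ℚ`, with
`trdeg_k k(g₂, g₃, pᵢ, ℘(pᵢ), ζ(pᵢ)) < 2 n - d`. -/
def Fails (k : Type) [Field k] [Algebra k ℂ] (d : ℕ) (L : PeriodPair) {n : ℕ} (p : Fin n → ℂ) :
    Prop :=
  (∀ i, p i ∉ L.lattice) ∧
  (∀ a : Fin n → ℂ, (∀ i, IsMult L (a i)) → ∑ i, a i * p i = 0 → a = 0) ∧
  trd k (numbers L p) + d < ((2 * n : ℕ) : Cardinal)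

/-- For every countable field `k` embedded in `ℂ` there is a countable set `F` of complex numbers
such that every failure `(L, p)` over `k`, of any defect, comes from a failure `(L', q)` of at least
this defect: `L' = c L`, the `q_i` are combinations of the `c p_j` over `End(ℂ / L) ⊗ ℚ`, and the
periods of `L'` and all numbers `g₂, g₃, q_i, ℘(q_i), ζ(q_i)` of `(L', q)` lie in `F`. -/
theorem result (k : Type) [Field k] [Algebra k ℂ] [Countable k] :
    ∃ F : Set ℂ, F.Countable ∧ ∀ (d n : ℕ) (L : PeriodPair) (p : Fin n → ℂ), Fails k d L p →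
      ∃ (c : ℂ) (L' : PeriodPair) (m : ℕ) (q : Fin m → ℂ), c ≠ 0 ∧
        (∀ x, c * x ∈ L'.lattice ↔ x ∈ L.lattice) ∧
        (∀ i, ∃ a : Fin n → ℂ, (∀ j, IsMult L (a j)) ∧ q i = c * ∑ j, a j * p j) ∧
        L'.ω₁ ∈ F ∧ L'.ω₂ ∈ F ∧ numbers L' q ⊆ F ∧ Fails k d L' q := by
  obtain ⟨F, hF, h⟩ := Pool.Agent.Y685.failures k
  refine ⟨F, hF, fun d n L p ⟨h1, h2, h3⟩ => ?_⟩
  obtain ⟨c, L', m, q, a1, a2, a3, ⟨a4, a5, a6⟩, a7, a8, a9⟩ := h d n L p h1 h2 h3
  exact ⟨c, L', m, q, a1, a2, a3, a4, a5, a6, a7, a8, a9⟩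

end Pool.Agent.Results.MP_2ad15a_nt.CountablyManyFailures
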