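import Mathlib
import Pool.Agent.Y685.F5

/-!
# The elliptic Schanuel conjecture for all lattices outside countably many `j`-invariants

`L` is a pair of periods `ω₁, ω₂` (independent over `ℝ`), `L.lattice = ℤ ω₁ + ℤ ω₂`, and `℘[L]`,
`L.g₂`, `L.g₃` are Mathlib's Weierstrass function and invariants.

For every countable field `k ⊆ ℂ` there is a countable set `J` such that for all lattices with
`j(L) ∉ J` and all `p₁, …, pₙ` outside the lattice which are linearly independent over `ℚ`
`trdeg_k k(g₂, g₃, pᵢ, ℘(pᵢ), ζ(pᵢ)) ≥ 2 n + trdeg_k k(π)`.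

## The proof (in `Pool.Agent.Y685`)

* Outside a countable set of `τ = ω₂ / ω₁` there is, for all points, a derivation `D` of `ℂ` over
  `k` which behaves like the derivation along the family of the curves `ℂ / (ℤ + ℤ τ)` with points
  on them.
* An Ax-Schanuel argument for the family and its periods (`StepA`, ..., `StepG`): if the
  transcendence degree is too small there are constants `e₁, …, e_s`, linearly independent over
  `ℚ`, and points `w₁, …, w_s`, algebraic over the field of the constants and of `g₂, g₃`, not all
  torsion, such that `∑ e_l w_l` and `∑ e_l ζ(w_l)` are, up to periods, algebraic over this field.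
* Such a relation is impossible (`E1A`, ..., `E1J`): after a normalization it gives a multivalued
  modular form of weight `-1` on the upper half plane, with at most polynomial growth at the cusps
  and at the branch points, which omits the values `±1, ±2, …`; its square is therefore holomorphic
  and bounded in the cusps, and vanishes.
-/

set_option autoImplicit false

open scoped PeriodPair

namespace Pool.Agent.Results.MP_2ad15a_nt.GenericLattices

/-- The Weierstrass zeta function `ζ(z) = ∑ (1/(z-l) + 1/l + z/l²)`, the sum over the lattice (the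
summand of `l = 0` is `1/z`, since `1/0 = 0` in Lean). -/
noncomputable def ζ (L : PeriodPair) (z : ℂ) : ℂ :=
  ∑' l : L.lattice, (1 / (z - l) + 1 / l + z / l ^ 2)

/-- The `j`-invariant of a lattice. -/
noncomputable def j (L : PeriodPair) : ℂ := 1728 * L.g₂ ^ 3 / (L.g₂ ^ 3 - 27 * L.g₃ ^ 2)

/-- The transcendence degree over `k` of the field generated by `S`. -/
noncomputable def trd (k : Type) [Field k] [Algebra k ℂ] (S : Set ℂ) : Cardinal :=
  Algebra.trdeg k (IntermediateField.adjoin k S)

/-- The numbers `g₂, g₃, pᵢ, ℘(pᵢ), ζ(pᵢ)`. -/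
def numbers (L : PeriodPair) {n : ℕ} (p : Fin n → ℂ) : Set ℂ :=
  {L.g₂, L.g₃} ∪ {x | ∃ i, x = p i ∨ x = ℘[L] (p i) ∨ x = ζ L (p i)}

/-- For every countable field `k` embedded in `ℂ` there is a countable set `J` of complex numbers
such that for every lattice `L` with `j(L) ∉ J` and all `p₁, …, pₙ` outside the lattice which are
linearly independent over `ℚ` the transcendence degree over `k` of the numbers
`g₂, g₃, pᵢ, ℘(pᵢ), ζ(pᵢ)` is at least `2 n + trdeg_k k(π)` (for `k = ℚ` this is `2 n + 1`). -/
theorem result (k : Type) [Field k] [Algebra k ℂ] [Countable k] :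
    ∃ J : Set ℂ, J.Countable ∧ ∀ L : PeriodPair, j L ∉ J → ∀ (n : ℕ) (p : Fin n → ℂ),
      (∀ i, p i ∉ L.lattice) → LinearIndependent ℚ p →
      ((2 * n : ℕ) : Cardinal) + trd k {(Real.pi : ℂ)} ≤ trd k (numbers L p) :=
  Pool.Agent.Y685.main_trdeg k

end Pool.Agent.Results.MP_2ad15a_nt.GenericLattices
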