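import Pool.Agent.Y627.KW.EllC

/-!
# Elliptic logarithms of almost all tuples of elements of a number field

For points `p_i` with `℘ (p_i)` algebraic (and algebraic invariants) the elliptic analogue of Schanuel's conjecture
predicts that the `2 n` numbers `p_i`, `ζ (p_i)` are algebraically independent. We consider, for arbitrary lattices
`L_1, …, L_n`, analytic branches `p_j` of the inverse functions of `℘_j` on open connected sets `S_j`, complex numbers
`λ_1, …, λ_r` linearly independent over `ℚ`, and `x = (x_1, …, x_n)` in `k ^ n`, `k` any number field in `ℂ`, the numbers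
`π`, `p_j (x_j)`, `ζ_j (p_j (x_j))`, `exp (λ_l p_j (x_j))`. The tuples `x` of height at most `T`, with the `x_j` in
compact subsets of `S_j`, for which these `n (r + 2) + 1` numbers satisfy a relation (even an approximate one) of degree
at most `d` with coefficients in `k` of height at most `T ^ A` lie on at most `C T ^ ε` hypersurfaces of degree at most
`D`. An earlier result of this pool (`EllipticLogarithms`) had `k = ℚ`, real `p_j` and lattices stable under complex
conjugation, no exponentials, and the bound `C T ^ (2 (n - 1) + β)`, `β > 2 - 2 / ((d + 1)^(2 n + 1) + 1)`, for the number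
of the exceptional tuples; here `ε` replaces `β`.

Proof: the general theorem of helper124 in the form of helper771 (`Pool.Agent.Y771.KF.stdK`) reduces this to the algebraic
independence of the functions `p (t)`, `ζ (p (t))`, `exp (λ_l p (t))` over `ℂ (t)`, i.e. of `z`, `℘ (z)`, `ζ (z)`,
`exp (λ_l z)` over `ℂ` (`Pool/Agent/Y627/KW/Ell.lean`).
-/

set_option autoImplicit false

namespace Pool.Agent.Results.MP_2ad15a_nt.NumberFieldTuples

/-- The Weierstrass zeta function `ζ(z) = ∑ (1/(z-l) + 1/l + z/l²)`, the sum over the lattice (the summand of `l = 0` is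
`1/z`, since `1/0 = 0` in Lean). -/
noncomputable def zeta (L : PeriodPair) (z : ℂ) : ℂ := ∑' l : L.lattice, (1 / (z - l) + 1 / l + z / l ^ 2)

/-- The `n (r + 2) + 1` numbers `π`, `exp (λ_l p_j (x_j))`, `p_j (x_j)`, `ζ_j (p_j (x_j))`, where `x_j` is read as a
complex number by the embedding `σ`. -/
noncomputable def numbers {k : Type} [Field k] (σ : k →+* ℂ) {n r : ℕ} (L : Fin n → PeriodPair) (lam : Fin r → ℂ)
    (p : Fin n → ℂ → ℂ) (x : Fin n → k) : Option (Fin n × (Fin r ⊕ Fin 2)) → ℂ
  | none => (Real.pi : ℂ)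
  | some (j, Sum.inl l) => Complex.exp (lam l * p j (σ (x j)))
  | some (j, Sum.inr 0) => p j (σ (x j))
  | some (j, Sum.inr 1) => zeta (L j) (p j (σ (x j)))

/-- The `n`-tuples `x` of elements of `k`, of height at most `T` and with `σ x_j ∈ K_j`, for which some nonzero
polynomial with coefficients in `k` of height at most `T ^ A`, of degree at most `d` in each variable, takes at the
`n (r + 2) + 1` numbers a value of absolute value at most `T ^ (-B)`. -/
def Exceptional {k : Type} [Field k] [NumberField k] (σ : k →+* ℂ) {n r : ℕ} (d : ℕ) (L : Fin n → PeriodPair)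
    (lam : Fin r → ℂ) (p : Fin n → ℂ → ℂ) (K : Fin n → Set ℂ) (A B T : ℝ) : Set (Fin n → k) :=
  {x | (∀ j, σ (x j) ∈ K j ∧ Height.mulHeight₁ (x j) ≤ T) ∧
    ∃ P : MvPolynomial (Option (Fin n × (Fin r ⊕ Fin 2))) k, P ≠ 0 ∧ (∀ i, P.degreeOf i ≤ d) ∧
      (∀ e, Height.mulHeight₁ (P.coeff e) ≤ T ^ A) ∧
      ‖MvPolynomial.eval₂ σ (numbers σ L lam p x) P‖ ≤ T ^ (-B)}

/-- Let `k` be a number field with an embedding `σ` in `ℂ`, `n ≥ 1`, let `L_1, …, L_n` be lattices, `λ_1, …, λ_r`
complex numbers linearly independent over `ℚ`, `S_j` open connected subsets of `ℂ`, `p_j` analytic on `S_j` with values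
outside `L_j` and `℘_j (p_j (t)) = t`, and `K_j` compact subsets of `S_j`. For all `d`, `A` and `ε > 0` there are `D`,
`B` and `C` such that for all `T ≥ 1` the exceptional `n`-tuples are zeros of at most `C T ^ ε` nonzero polynomials of
degree at most `D`, and their number is at most `C T ^ ε N (T) ^ (n - 1)`, where `N (T)` is the number of elements of `k`
of height at most `T`. -/
theorem result (k : Type) [Field k] [NumberField k] (σ : k →+* ℂ) (n r d : ℕ) (hn : 1 ≤ n)
    (L : Fin n → PeriodPair) (lam : Fin r → ℂ)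
    (hlam : ∀ c : Fin r → ℤ, ∑ l, (c l : ℂ) * lam l = 0 → c = 0)
    (S : Fin n → Set ℂ) (hSo : ∀ j, IsOpen (S j)) (hSc : ∀ j, IsConnected (S j))
    (p : Fin n → ℂ → ℂ) (hp : ∀ j, AnalyticOnNhd ℂ (p j) (S j)) (hpL : ∀ j, ∀ t ∈ S j, p j t ∉ (L j).lattice)
    (hpt : ∀ j, ∀ t ∈ S j, (L j).weierstrassP (p j t) = t)
    (K : Fin n → Set ℂ) (hK : ∀ j, IsCompact (K j)) (hKS : ∀ j, K j ⊆ S j) (A ε : ℝ) (hε : 0 < ε) :
    ∃ (D : ℕ) (B C : ℝ), ∀ T : ℝ, 1 ≤ T →
      (∃ Φ : Finset (MvPolynomial (Fin n) k), (Φ.card : ℝ) ≤ C * T ^ ε ∧ (∀ R ∈ Φ, R ≠ 0 ∧ R.totalDegree ≤ D) ∧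
        ∀ x ∈ Exceptional σ d L lam p K A B T, ∃ R ∈ Φ, MvPolynomial.eval x R = 0) ∧
      (Exceptional σ d L lam p K A B T).Finite ∧
      ((Exceptional σ d L lam p K A B T).ncard : ℝ) ≤
        C * T ^ ε * ({x : k | Height.mulHeight₁ x ≤ T}.ncard : ℝ) ^ (n - 1) := by
  obtain ⟨D, B, C, h⟩ := Pool.Agent.Y627.KW.main σ n d hn
    (fun j => Pool.Agent.Y627.KW.fB (L j) lam (p j)) S K
    (fun j => (hSc j).isPreconnected) hK hKS
    (fun j w => Pool.Agent.Y627.KW.fB_an (L j) lam (S j) (p j) (hp j) (hpL j) w)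
    (fun j => Pool.Agent.Y627.KW.fB_indep (L j) lam hlam (S j) (hSo j) (hSc j).nonempty (p j) (hp j) (hpL j) (hpt j))
    A ε hε
  refine ⟨D, B, C, fun T hT => ?_⟩
  have hset : Exceptional σ d L lam p K A B T = Pool.Agent.Y627.KW.ExcW σ d
      (fun j => Pool.Agent.Y627.KW.fB (L j) lam (p j)) K A B T := by
    have heq : ∀ x : Fin n → k, numbers σ L lam p x = Pool.Agent.Y627.KW.numW σ
        (fun j => Pool.Agent.Y627.KW.fB (L j) lam (p j)) x := by
      intro x
      funext i
      rcases i with _ | ⟨j, l | i⟩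
      · rfl
      · rfl
      · fin_cases i <;> rfl
    ext x
    simp only [Exceptional, Pool.Agent.Y627.KW.ExcW, Set.mem_ofPred_eq, heq]
  rw [hset]
  exact h T hT

end Pool.Agent.Results.MP_2ad15a_nt.NumberFieldTuples
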