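import Pool.Agent.Y916.Sch.EllU

/-!
# The elliptic analogue of Schanuel's conjecture in bounded degree for the translates of every point in a window

Let `E : y² = 4 x³ - g₂ x - g₃` be an elliptic curve with rational `g₂`, `g₃` and lattice `Λ`, and let `z` be any point of
`ℂⁿ`. We translate `z` by elliptic logarithms of the algebraic points of `E` with abscissa `ξ + g`, `1 ≤ g ≤ H`, in a window
around an arbitrary algebraic number `ξ` of degree at most `m`, of height at most `|ξ|^A` and of absolute value at least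
`(H + 2)^E₀`: `p_i = z_i + (a number with ℘ = ξ + g_i)`. Except for at most `5 n + q + 4 + ρ` of the integers `g`, `ρ` the
transcendence degree of the field generated by the periods and quasi-periods and `2 π i`, all such translates satisfy the
elliptic analogue of Schanuel's conjecture in bounded degree, in the following strong form: every polynomial relation of
bounded degree over number fields of bounded degree, of any height, between the periods, arbitrary constants
`w_1, ..., w_q`, the numbers `p_i`, `ζ(p_i)` and the numbers `℘(p_i)`, `℘'(p_i)` is an identity in the `2 n` numbers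
`p_i`, `ζ(p_i)`. The number `E₀` does not depend on `z` and `w`.

The proof uses the theorem on elliptic logarithms and logarithms in windows (`MP_c9768e_nt.AlgebraicWindows`; parts by
helper333, helper71, helper261, helper419, helper113, helper787, helper708, helper921) and the addition theorem (in a
starting file, `Pool.Agent.H667R3.W5`).
-/

set_option autoImplicit false

open scoped PeriodPair

namespace Pool.Agent.Results.MP_2ad15a_nt.TranslatesInWindows

/-- The Weierstrass zeta function `ζ(z) = ∑ (1/(z-l) + 1/l + z/l²)`, the sum over the lattice (the summand of `l = 0` is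
`1/z`, since `1/0 = 0` in Lean). -/
noncomputable def zeta (Λ : PeriodPair) (z : ℂ) : ℂ := ∑' l : Λ.lattice, (1 / (z - l) + 1 / l + z / l ^ 2)

/-- The periods `ω₁`, `ω₂`, the half quasi-periods `ζ(ω₁/2)`, `ζ(ω₂/2)`, and `2πi`. -/
noncomputable def periods (Λ : PeriodPair) : Fin 5 → ℂ :=
  ![Λ.ω₁, Λ.ω₂, zeta Λ (Λ.ω₁ / 2), zeta Λ (Λ.ω₂ / 2), 2 * Real.pi * Complex.I]

/-- The numbers `p_i` and `ζ(p_i)`. -/
noncomputable def logarithms (Λ : PeriodPair) {n : ℕ} (p : Fin n → ℂ) : Fin n × Fin 2 → ℂ :=
  fun a => ![p a.1, zeta Λ (p a.1)] a.2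

/-- The numbers `℘(p_i)` and `℘'(p_i)`. -/
noncomputable def points (Λ : PeriodPair) {n : ℕ} (p : Fin n → ℂ) : Fin n × Fin 2 → ℂ :=
  fun a => ![℘[Λ] (p a.1), ℘'[Λ] (p a.1)] a.2

/-- Every polynomial relation of degree `≤ δ` over a number field of degree `≤ d` between the constants `w`, the
`logarithms` and the `points` is an identity in the logarithms. -/
def FreeOverPoints (Λ : PeriodPair) (δ d : ℕ) {υ : Type} {n : ℕ} (w : υ → ℂ) (p : Fin n → ℂ) : Prop :=
  ∀ L : IntermediateField ℚ ℂ, FiniteDimensional ℚ L → Module.finrank ℚ L ≤ d →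
  ∀ P : MvPolynomial (υ ⊕ ((Fin n × Fin 2) ⊕ (Fin n × Fin 2))) L, P.totalDegree ≤ δ →
  MvPolynomial.aeval (Sum.elim w (Sum.elim (logarithms Λ p) (points Λ p))) P = 0 →
  ∀ v : Fin n × Fin 2 → ℂ, MvPolynomial.aeval (Sum.elim w (Sum.elim v (points Λ p))) P = 0

/-- Let `Λ` be a lattice with rational invariants. For all `n`, `q`, `m`, `A`, `δ`, `d` there is `E` such that for all `H`,
all complex numbers `ξ` with `|ξ| ≥ (H + 2)^E` which are roots of a nonzero integral polynomial of degree at most `m` with
coefficients at most `|ξ|^A`, all `w_1, ..., w_q` and all `z` in `ℂⁿ` there is a set `S` of at most `5 n + q + 4 + ρ`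
integers, `ρ` the transcendence degree of the field generated by the `periods`, such that for all distinct integers
`g_1, ..., g_n` in `[1, H]` outside `S` all `p` in `ℂⁿ` with `℘(p_i - z_i) = ξ + g_i` (and `p_i`, `p_i - z_i` not in the
lattice) are free over their points, `w` and the periods. -/
theorem result (Λ : PeriodPair) (a b : ℚ) (ha : Λ.g₂ = a) (hb : Λ.g₃ = b) (n q m A δ d : ℕ) :
    ∃ E : ℕ, ∀ (H : ℕ) (ξ : ℂ), ((H : ℝ) + 2) ^ E ≤ ‖ξ‖ →
      (∃ p : Polynomial ℤ, p ≠ 0 ∧ p.natDegree ≤ m ∧ (∀ j, |(p.coeff j : ℝ)| ≤ ‖ξ‖ ^ A) ∧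
        Polynomial.aeval ξ p = 0) →
      ∀ (w : Fin q → ℂ) (z : Fin n → ℂ), ∃ S : Finset ℕ,
      (S.card : Cardinal) ≤ ((5 * n + q + 4 : ℕ) : Cardinal) +
        Algebra.trdeg ℚ (IntermediateField.adjoin ℚ (Set.range (periods Λ))) ∧
      ∀ g : Fin n → ℕ, Function.Injective g → (∀ i, 1 ≤ g i ∧ g i ≤ H ∧ g i ∉ S) →
      ∀ p : Fin n → ℂ, (∀ i, p i ∉ Λ.lattice ∧ p i - z i ∉ Λ.lattice ∧ ℘[Λ] (p i - z i) = ξ + g i) →
      FreeOverPoints Λ δ d (Sum.elim w (periods Λ)) p :=
  Pool.Agent.Y916.Sch.winU Λ a b ha hb n q m A δ d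

end Pool.Agent.Results.MP_2ad15a_nt.TranslatesInWindows
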